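import Mathlib
import Pool.Agent.Lib.MP_b3c6e2_an.Diag

/-!
The (I)-envelope of a convex union of two sets is the union of the (I)-envelopes.
-/

namespace Pool.Agent.Results.MP_b3c6e2_an.IenvUnion

open Set Filter Topology

variable {𝕜 : Type*} [RCLike 𝕜] {X : Type*} [NormedAddCommGroup X] [NormedSpace 𝕜 X]

/-- The weak-star closure of a subset of the dual `X*`. -/
def wstarClosure (S : Set (StrongDual 𝕜 X)) : Set (StrongDual 𝕜 X) :=
  {ξ | StrongDual.toWeakDual ξ ∈ closure (StrongDual.toWeakDual '' S)}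

/-- The (I)-envelope of `A ⊆ X*`: the intersection, over all ways of writing `A` as a countable
union of subsets `F n`, of the norm closures of the convex hull of the union of the weak-star
closures of the convex hulls of the `F n`. -/
def Ienv (A : Set (StrongDual 𝕜 X)) : Set (StrongDual 𝕜 X) :=
  {η | ∀ F : ℕ → Set (StrongDual 𝕜 X), A = ⋃ n, F n →
    η ∈ closure (convexHull ℝ (⋃ n, wstarClosure (convexHull ℝ (F n))))}

lemma wstarClosure_mono {S T : Set (StrongDual 𝕜 X)} (h : S ⊆ T) :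
    wstarClosure S ⊆ wstarClosure T := by
  intro ξ hξ
  have h1 : closure (StrongDual.toWeakDual '' S : Set (WeakDual 𝕜 X)) ⊆
    closure (StrongDual.toWeakDual '' T) := closure_mono (image_mono h)
  exact h1 hξ

section compact

variable {E : Type*} [AddCommGroup E] [Module ℝ E] [TopologicalSpace E] [ContinuousAdd E]
  [ContinuousSMul ℝ E]

lemma isCompact_convexJoin {s t : Set E} (hs : IsCompact s) (ht : IsCompact t) :
    IsCompact (convexJoin ℝ s t) := by
  have h : convexJoin ℝ s t =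
      (fun p : (E × E) × ℝ => (1 - p.2) • p.1.1 + p.2 • p.1.2) '' ((s ×ˢ t) ×ˢ Icc (0 : ℝ) 1) := by
    ext x
    rw [mem_convexJoin]
    constructor
    · rintro ⟨a, ha, b, hb, hx⟩
      rw [segment_eq_image] at hx
      obtain ⟨θ, hθ, rfl⟩ := hx
      exact ⟨((a, b), θ), ⟨⟨ha, hb⟩, hθ⟩, rfl⟩
    · rintro ⟨⟨⟨a, b⟩, θ⟩, ⟨⟨ha, hb⟩, hθ⟩, rfl⟩
      refine ⟨a, ha, b, hb, ?_⟩
      rw [segment_eq_image]
      exact ⟨θ, hθ, rfl⟩
  rw [h]
  refine ((hs.prod ht).prod isCompact_Icc).image ?_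
  fun_prop

/-- The convex hull of a finite union of compact convex sets is compact. -/
lemma isCompact_convexHull_biUnion {ι : Type*} (I : Finset ι) (K : ι → Set E)
    (hK : ∀ i, IsCompact (K i)) (hKc : ∀ i, Convex ℝ (K i)) :
    IsCompact (convexHull ℝ (⋃ i ∈ I, K i)) := by
  classical
  induction I using Finset.induction_on with
  | empty => simp
  | insert a I _ ih =>
    rw [Finset.set_biUnion_insert]
    rcases (K a).eq_empty_or_nonempty with h1 | h1
    · rw [h1, empty_union]; exact ih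
    rcases (⋃ i ∈ I, K i).eq_empty_or_nonempty with h2 | h2
    · rw [h2, union_empty, (hKc a).convexHull_eq]; exact hK a
    have h3 : convexHull ℝ (K a ∪ ⋃ i ∈ I, K i) =
        convexHull ℝ (K a ∪ convexHull ℝ (⋃ i ∈ I, K i)) := by
      apply Subset.antisymm
      · exact convexHull_mono (union_subset_union_right _ (subset_convexHull ℝ _))
      · refine convexHull_min (union_subset ?_ ?_) (convex_convexHull ℝ _)
        · exact subset_union_left.trans (subset_convexHull ℝ _)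
        · exact convexHull_mono subset_union_right
    rw [h3, (hKc a).convexHull_union (convex_convexHull ℝ _) h1 (h2.convexHull (𝕜 := ℝ))]
    exact isCompact_convexJoin (hK a) ih

/-- Separation of finitely many compact convex sets, all inside a convex set `E'`, from a closed
convex set disjoint from `E'`. -/
lemma generic_sep {𝕜 : Type*} [RCLike 𝕜] {E : Type*} [AddCommGroup E] [TopologicalSpace E]
    [IsTopologicalAddGroup E] [Module ℝ E] [Module 𝕜 E] [IsScalarTower ℝ 𝕜 E]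
    [ContinuousSMul 𝕜 E] [LocallyConvexSpace ℝ E] (n : ℕ) (S : ℕ → Set E)
    (hS : ∀ i, IsCompact (closure (convexHull ℝ (S i)))) (E' : Set E) (hE' : Convex ℝ E')
    (hSE : ∀ i, closure (convexHull ℝ (S i)) ⊆ E') (Bal : Set E) (hBal : Convex ℝ Bal)
    (hBalc : IsClosed Bal) (hdisj : Disjoint E' Bal) :
    ∃ (f : StrongDual 𝕜 E) (u v : ℝ), (∀ i ≤ n, ∀ a ∈ S i, RCLike.re (f a) < u) ∧ u < v ∧
      ∀ b ∈ Bal, v < RCLike.re (f b) := by
  have hc : ContinuousSMul ℝ E := IsScalarTower.continuousSMul (M := ℝ) (α := E) 𝕜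
  have hcomp := isCompact_convexHull_biUnion (Finset.range (n + 1))
    (fun i => closure (convexHull ℝ (S i))) hS (fun i => (convex_convexHull ℝ (S i)).closure)
  have hsub : convexHull ℝ (⋃ i ∈ Finset.range (n + 1), closure (convexHull ℝ (S i))) ⊆ E' :=
    convexHull_min (iUnion₂_subset fun i _ => hSE i) hE'
  obtain ⟨f, u, v, h1, h2, h3⟩ := RCLike.geometric_hahn_banach_compact_closed (𝕜 := 𝕜)
    (convex_convexHull ℝ _) hcomp hBal hBalc (hdisj.mono_left hsub)
  refine ⟨f, u, v, fun i hi a ha => h1 a (subset_convexHull ℝ _ ?_), h2, h3⟩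
  exact mem_iUnion₂.2 ⟨i, Finset.mem_range.2 (by omega),
    subset_closure (subset_convexHull ℝ _ ha)⟩

end compact

lemma weakDual_tower : IsScalarTower ℝ 𝕜 (WeakDual 𝕜 X) where
  smul_assoc r c f := by
    refine DFunLike.ext _ _ fun x => ?_
    change (r • c) * f x = r • (c * f x)
    rw [smul_mul_assoc]

lemma weakDual_lcs : LocallyConvexSpace ℝ (WeakDual 𝕜 X) :=
  have _tower : IsScalarTower ℝ 𝕜 (WeakDual 𝕜 X) := weakDual_tower
  WeakBilin.locallyConvexSpace (B := topDualPairing 𝕜 X)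

lemma eval_repr (f : StrongDual 𝕜 (WeakDual 𝕜 X)) : ∃ x : X, ∀ ξ : StrongDual 𝕜 X,
    f (StrongDual.toWeakDual ξ) = ξ x := by
  obtain ⟨x, hx⟩ := LinearMap.dualEmbedding_surjective (topDualPairing 𝕜 X) f
  refine ⟨x, fun ξ => ?_⟩
  rw [← hx]
  rfl

lemma re_smul_sub (r : ℝ) (ξ : StrongDual 𝕜 X) (x : X) :
    RCLike.re ((r • ξ) x) = r * RCLike.re (ξ x) := by
  change RCLike.re (r • (ξ x)) = _
  rw [RCLike.smul_re]

/-- Hahn-Banach step: finitely many norm-bounded pieces whose weak-star closed convex hulls lie in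
a convex set at distance at least `r` from `η` are separated from `η` by a vector of the unit ball
with gap `r / 2`. -/
lemma separate (n : ℕ) (F : ℕ → Set (StrongDual 𝕜 X))
    (hF : ∀ i, F i ⊆ Metric.closedBall 0 (n : ℝ))
    (E : Set (StrongDual 𝕜 X)) (hE : Convex ℝ E)
    (hFE : ∀ i, wstarClosure (convexHull ℝ (F i)) ⊆ E)
    (η : StrongDual 𝕜 X) (r : ℝ) (hr : 0 < r) (hd : ∀ ξ ∈ E, r ≤ dist η ξ) :
    ∃ x : X, ‖x‖ ≤ 1 ∧ ∀ i ≤ n, ∀ ξ ∈ F i, RCLike.re ((ξ - η) x) ≤ -(r / 2) := by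
  by_cases hemp : ∀ i ≤ n, F i = ∅
  · refine ⟨0, by simp, fun i hi ξ hξ => ?_⟩
    rw [hemp i hi] at hξ
    exact hξ.elim
  push Not at hemp
  obtain ⟨i₀, hi₀, ξ₀, hξ₀⟩ := hemp
  have tower : IsScalarTower ℝ 𝕜 (WeakDual 𝕜 X) := weakDual_tower
  have lc : LocallyConvexSpace ℝ (WeakDual 𝕜 X) := weakDual_lcs
  set Bal : Set (WeakDual 𝕜 X) := WeakDual.toStrongDual ⁻¹' Metric.closedBall η (r / 2) with hBal
  have hdisj : Disjoint (StrongDual.toWeakDual '' E) Bal := by
    rw [Set.disjoint_left]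
    rintro _ ⟨p, hp, rfl⟩ hp'
    have h1 := hd p hp
    have h2 : dist p η ≤ r / 2 := hp'
    rw [dist_comm] at h2
    linarith
  obtain ⟨f, u, v, hfT, huv, hfB⟩ := generic_sep (𝕜 := 𝕜) (E := WeakDual 𝕜 X) n
    (fun i => StrongDual.toWeakDual '' F i)
    (fun i => by
      refine WeakDual.isCompact_of_bounded_of_closed (WeakDual.isBounded_closure ?_)
        isClosed_closure
      refine (WeakDual.isBounded_closedBall (0 : StrongDual 𝕜 X) (n : ℝ)).subset ?_
      refine convexHull_min ?_ ?_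
      · rintro _ ⟨p, hp, rfl⟩
        exact hF i hp
      · intro p hp q hq s t hs ht hst
        exact convex_closedBall (0 : StrongDual 𝕜 X) (n : ℝ) (x := WeakDual.toStrongDual p) hp
          (y := WeakDual.toStrongDual q) hq hs ht hst)
    (StrongDual.toWeakDual '' E)
    (by
      rintro _ ⟨p, hp, rfl⟩ _ ⟨q, hq, rfl⟩ s t hs ht hst
      exact ⟨s • p + t • q, hE hp hq hs ht hst, rfl⟩)
    (fun i => by
      intro p hp
      refine ⟨WeakDual.toStrongDual p, hFE i ?_, rfl⟩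
      change p ∈ closure (StrongDual.toWeakDual '' convexHull ℝ (F i))
      refine closure_mono (convexHull_min ?_ ?_) hp
      · exact image_mono (subset_convexHull ℝ _)
      · rintro _ ⟨p, hp, rfl⟩ _ ⟨q, hq, rfl⟩ s t hs ht hst
        exact ⟨s • p + t • q, convex_convexHull ℝ _ hp hq hs ht hst, rfl⟩)
    Bal
    (by
      intro p hp q hq s t hs ht hst
      exact convex_closedBall η (r / 2) (x := WeakDual.toStrongDual p) hp
          (y := WeakDual.toStrongDual q) hq hs ht hst)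
    (WeakDual.isClosed_closedBall η (r / 2)) hdisj
  obtain ⟨x, hx⟩ := eval_repr f
  have key : ∀ i ≤ n, ∀ ξ ∈ F i, RCLike.re ((ξ - η) x) < -(r / 2) * ‖x‖ := by
    intro i hi ξ hξ
    obtain ⟨φ, hφ1, hφ2⟩ := exists_dual_vector'' 𝕜 x
    have h1 := hfT i hi _ ⟨ξ, hξ, rfl⟩
    rw [hx] at h1
    have h2 := hfB (StrongDual.toWeakDual (η - (r / 2 : ℝ) • φ)) (by
      change dist (η - (r / 2 : ℝ) • φ) η ≤ r / 2
      rw [dist_eq_norm, sub_sub_cancel_left, norm_neg, norm_smul, Real.norm_eq_abs,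
        abs_of_pos (by positivity : 0 < r / 2)]
      nlinarith)
    rw [hx] at h2
    have h3 : RCLike.re ((η - (r / 2 : ℝ) • φ) x) = RCLike.re (η x) - (r / 2) * ‖x‖ := by
      rw [sub_apply, map_sub, re_smul_sub, hφ2, RCLike.ofReal_re]
    rw [h3] at h2
    rw [sub_apply, map_sub]
    linarith
  have hx0 : x ≠ 0 := by
    rintro rfl
    have := key i₀ hi₀ ξ₀ hξ₀
    simp at this
  have hxn : 0 < ‖x‖ := norm_pos_iff.2 hx0
  refine ⟨((‖x‖⁻¹ : ℝ) : 𝕜) • x, ?_, fun i hi ξ hξ => ?_⟩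
  · rw [norm_smul, RCLike.norm_ofReal, abs_of_pos (by positivity), inv_mul_cancel₀ hxn.ne']
  · have h1 := key i hi ξ hξ
    rw [map_smul, smul_eq_mul, RCLike.re_ofReal_mul]
    have h2 : ‖x‖⁻¹ * RCLike.re ((ξ - η) x) ≤ ‖x‖⁻¹ * (-(r / 2) * ‖x‖) :=
      mul_le_mul_of_nonneg_left h1.le (by positivity)
    have h3 : ‖x‖⁻¹ * (-(r / 2) * ‖x‖) = -(r / 2) := by
      field_simp
    linarith

/-- A functional outside the (I)-envelope is separated by a sequence. -/
lemma exists_seq (A : Set (StrongDual 𝕜 X)) (η : StrongDual 𝕜 X) (hη : η ∉ Ienv A) :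
    ∃ x : ℕ → X, (∀ n, ‖x n‖ ≤ 1) ∧ ∃ c : ℝ, 0 < c ∧ ∀ ξ ∈ A,
      ∀ᶠ n in atTop, RCLike.re ((ξ - η) (x n)) ≤ -c := by
  classical
  have : ∃ F : ℕ → Set (StrongDual 𝕜 X), A = ⋃ n, F n ∧
      η ∉ closure (convexHull ℝ (⋃ n, wstarClosure (convexHull ℝ (F n)))) := by
    by_contra hcon
    push Not at hcon
    exact hη hcon
  obtain ⟨F, hAF, hηF⟩ := this
  set E := convexHull ℝ (⋃ n, wstarClosure (convexHull ℝ (F n))) with hE
  have : ∃ r : ℝ, 0 < r ∧ ∀ e ∈ E, r ≤ dist η e := by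
    by_contra hcon
    push Not at hcon
    exact hηF (Metric.mem_closure_iff.2 hcon)
  obtain ⟨r, hr, hd⟩ := this
  have hsep : ∀ n : ℕ, ∃ x : X, ‖x‖ ≤ 1 ∧ ∀ i ≤ n, ∀ ξ ∈ F i ∩ Metric.closedBall 0 (n : ℝ),
      RCLike.re ((ξ - η) x) ≤ -(r / 2) := by
    intro n
    refine separate n (fun i => F i ∩ Metric.closedBall 0 (n : ℝ)) (fun i => inter_subset_right)
      E (convex_convexHull ℝ _) (fun i => ?_) η r hr hd
    refine Subset.trans ?_ ((subset_iUnion (fun n => wstarClosure (convexHull ℝ (F n))) i).trans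
      (subset_convexHull ℝ _))
    exact wstarClosure_mono (convexHull_mono inter_subset_left)
  choose x hx1 hx2 using hsep
  refine ⟨x, hx1, r / 2, by positivity, fun ξ hξ => ?_⟩
  rw [hAF] at hξ
  obtain ⟨i, hi⟩ := mem_iUnion.1 hξ
  obtain ⟨N, hN⟩ := exists_nat_ge ‖ξ‖
  filter_upwards [eventually_ge_atTop (max i N)] with n hn
  refine hx2 n i ((le_max_left i N).trans hn) ξ ⟨hi, ?_⟩
  rw [mem_closedBall_zero_iff]
  have h1 : (N : ℝ) ≤ n := by
    have := le_max_right i N
    exact_mod_cast this.trans hn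
  linarith

/-- Conversely a separating sequence shows that the functional is outside the (I)-envelope. -/
lemma notMem_of_seq (C : Set (StrongDual 𝕜 X)) (η : StrongDual 𝕜 X) (z : ℕ → X)
    (hz : ∀ n, ‖z n‖ ≤ 1) (c : ℝ) (hc : 0 < c)
    (h : ∀ ξ ∈ C, ∀ᶠ n in atTop, RCLike.re ((ξ - η) (z n)) ≤ -c) : η ∉ Ienv C := by
  intro hη
  set F : ℕ → Set (StrongDual 𝕜 X) := fun m =>
    {ξ | ξ ∈ C ∧ ∀ n, m ≤ n → RCLike.re ((ξ - η) (z n)) ≤ -c} with hF
  set P : ℕ → Set (StrongDual 𝕜 X) := fun m =>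
    {ξ | ∀ n, m ≤ n → RCLike.re ((ξ - η) (z n)) ≤ -c} with hP
  have hCF : C = ⋃ m, F m := by
    ext ξ
    constructor
    · intro hξ
      obtain ⟨m, hm⟩ := eventually_atTop.1 (h ξ hξ)
      exact mem_iUnion.2 ⟨m, hξ, hm⟩
    · intro hξ
      obtain ⟨m, hm⟩ := mem_iUnion.1 hξ
      exact hm.1
  have hPconv : ∀ m, Convex ℝ (P m) := by
    intro m p hp q hq s t hs ht hst n hn
    have h1 := hp n hn
    have h2 := hq n hn
    rw [sub_apply, map_sub] at h1 h2
    rw [sub_apply, map_sub, add_apply, map_add,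
      re_smul_sub, re_smul_sub]
    have h3 : RCLike.re (η (z n)) = s * RCLike.re (η (z n)) + t * RCLike.re (η (z n)) := by
      rw [← add_mul, hst, one_mul]
    have h4 : -c = s * (-c) + t * (-c) := by rw [← add_mul, hst, one_mul]
    rw [h3, h4]
    nlinarith
  have hsub : ∀ m, wstarClosure (convexHull ℝ (F m)) ⊆ P m := by
    intro m ξ hξ n hn
    have hcl : IsClosed {p : WeakDual 𝕜 X | RCLike.re (p (z n)) ≤ -c + RCLike.re (η (z n))} :=
      isClosed_le (RCLike.continuous_re.comp (WeakDual.eval_continuous (z n))) continuous_const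
    have h1 : StrongDual.toWeakDual '' convexHull ℝ (F m) ⊆
        {p : WeakDual 𝕜 X | RCLike.re (p (z n)) ≤ -c + RCLike.re (η (z n))} := by
      rintro _ ⟨q, hq, rfl⟩
      have h2 : q ∈ P m := convexHull_min (fun ζ hζ => hζ.2) (hPconv m) hq
      have h3 := h2 n hn
      rw [sub_apply, map_sub] at h3
      change RCLike.re (q (z n)) ≤ -c + RCLike.re (η (z n))
      linarith
    have h4 := closure_minimal h1 hcl hξ
    have h5 : RCLike.re (ξ (z n)) ≤ -c + RCLike.re (η (z n)) := h4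
    rw [sub_apply, map_sub]
    linarith
  have hconv : Convex ℝ (⋃ m, P m) := by
    refine Directed.convex_iUnion ?_ (fun i => hPconv i)
    have hmono : Monotone P := fun i j hij ξ hξ n hn => hξ n (hij.trans hn)
    exact hmono.directed_le
  have hE : convexHull ℝ (⋃ n, wstarClosure (convexHull ℝ (F n))) ⊆ ⋃ m, P m :=
    convexHull_min (iUnion_mono hsub) hconv
  have h6 := hη F hCF
  obtain ⟨e, he, hde⟩ := Metric.mem_closure_iff.1 h6 c hc
  obtain ⟨m, hm⟩ := mem_iUnion.1 (hE he)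
  have h7 := hm m le_rfl
  have h8 : ‖(e - η) (z m)‖ ≤ ‖e - η‖ * ‖z m‖ := (e - η).le_opNorm _
  have h9 : c ≤ ‖(e - η) (z m)‖ := by
    have := RCLike.abs_re_le_norm ((e - η) (z m))
    have h10 := neg_le_abs (RCLike.re ((e - η) (z m)))
    linarith
  have h11 : ‖e - η‖ * ‖z m‖ ≤ ‖e - η‖ := by
    have := hz m
    have h12 := norm_nonneg (e - η)
    nlinarith
  rw [dist_comm, dist_eq_norm] at hde
  linarith

lemma Ienv_mono {A B : Set (StrongDual 𝕜 X)} (hAB : A ⊆ B) : Ienv A ⊆ Ienv B := by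
  intro η hη F hF
  have h1 : A = ⋃ n, (F n ∩ A) := by
    rw [← iUnion_inter, ← hF, inter_eq_right.2 hAB]
  have h2 := hη (fun n => F n ∩ A) h1
  exact closure_mono (convexHull_mono (iUnion_mono fun n =>
    wstarClosure_mono (convexHull_mono inter_subset_left))) h2

/-- **Main theorem.** Let `X` be a real or complex normed space and let `A, B` be subsets of `X*`
whose union is convex. Then `Ienv (A ∪ B) = Ienv A ∪ Ienv B`. -/
theorem result {𝕜 : Type*} [RCLike 𝕜] {X : Type*} [NormedAddCommGroup X] [NormedSpace 𝕜 X]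
    (A B : Set (StrongDual 𝕜 X)) (hAB : Convex ℝ (A ∪ B)) :
    Ienv (A ∪ B) = Ienv A ∪ Ienv B := by
  apply Subset.antisymm
  · intro η hη
    by_contra hcon
    rw [mem_union, not_or] at hcon
    obtain ⟨x, hx, c₁, hc₁, hxA⟩ := exists_seq A η hcon.1
    obtain ⟨y, hy, c₂, hc₂, hyB⟩ := exists_seq B η hcon.2
    set c := min c₁ c₂ with hc
    have hc0 : 0 < c := lt_min hc₁ hc₂
    have haff : ∀ (w : ℕ → X) (ξ ζ : StrongDual 𝕜 X) (s t : ℝ), s + t = 1 → ∀ n,
        RCLike.re ((s • ξ + t • ζ - η) (w n)) =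
          s * RCLike.re ((ξ - η) (w n)) + t * RCLike.re ((ζ - η) (w n)) := by
      intro w ξ ζ s t hst n
      simp only [sub_apply, add_apply, map_sub, map_add,
        re_smul_sub]
      have : RCLike.re (η (w n)) = s * RCLike.re (η (w n)) + t * RCLike.re (η (w n)) := by
        rw [← add_mul, hst, one_mul]
      linarith
    have hbd : ∀ (w : ℕ → X), (∀ n, ‖w n‖ ≤ 1) → ∀ ξ : StrongDual 𝕜 X, ∀ n,
        |RCLike.re ((ξ - η) (w n))| ≤ ‖ξ - η‖ := by
      intro w hw ξ n
      have h1 := RCLike.abs_re_le_norm ((ξ - η) (w n))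
      have h2 : ‖(ξ - η) (w n)‖ ≤ ‖ξ - η‖ * ‖w n‖ := (ξ - η).le_opNorm _
      have h3 := hw n
      have h4 := norm_nonneg (ξ - η)
      nlinarith
    obtain ⟨t, ht, M, hM, hfin⟩ := Pool.Agent.MP_b3c6e2_an.Diag.key (A ∪ B) hAB
      (fun ξ n => RCLike.re ((ξ - η) (x n))) (fun ξ n => RCLike.re ((ξ - η) (y n))) c
      (fun ξ _ ζ _ s t _ _ hst n => haff x ξ ζ s t hst n)
      (fun ξ _ ζ _ s t _ _ hst n => haff y ξ ζ s t hst n)
      (fun ξ _ => ⟨‖ξ - η‖, fun n => ⟨hbd x hx ξ n, hbd y hy ξ n⟩⟩)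
      (fun ξ hξ => by
        rcases hξ with hξ | hξ
        · left
          filter_upwards [hxA ξ hξ] with n hn
          have := min_le_left c₁ c₂
          linarith
        · right
          filter_upwards [hyB ξ hξ] with n hn
          have := min_le_right c₁ c₂
          linarith)
    -- the combined sequence
    set φ := Nat.nth (· ∈ M) with hφ
    have hφM : ∀ k, φ k ∈ M := fun k => Nat.nth_mem_of_infinite hM k
    have hφmono : StrictMono φ := Nat.nth_strictMono hM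
    refine notMem_of_seq (A ∪ B) η
      (fun k => ((t : ℝ) : 𝕜) • x (φ k) + ((1 - t : ℝ) : 𝕜) • y (φ k)) (fun k => ?_) (c / 2)
      (by positivity) (fun ξ hξ => ?_) hη
    · calc ‖((t : ℝ) : 𝕜) • x (φ k) + ((1 - t : ℝ) : 𝕜) • y (φ k)‖
          ≤ ‖((t : ℝ) : 𝕜) • x (φ k)‖ + ‖((1 - t : ℝ) : 𝕜) • y (φ k)‖ := norm_add_le _ _
        _ = t * ‖x (φ k)‖ + (1 - t) * ‖y (φ k)‖ := by
          rw [norm_smul, norm_smul, RCLike.norm_ofReal, RCLike.norm_ofReal, abs_of_nonneg ht.1,
            abs_of_nonneg (by linarith [ht.2])]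
        _ ≤ 1 := by
          have h1 := hx (φ k)
          have h2 := hy (φ k)
          have h3 := ht.1
          have h4 := ht.2
          nlinarith
    · have h1 := hfin ξ hξ (c / 2) (by positivity)
      have h2 : ∀ᶠ k in atTop, φ k ∉ {n ∈ M | -c + c / 2 <
          t * RCLike.re ((ξ - η) (x n)) + (1 - t) * RCLike.re ((ξ - η) (y n))} := by
        have h3 := hφmono.injective.tendsto_cofinite
        rw [Nat.cofinite_eq_atTop] at h3
        exact h3 (by rw [← Nat.cofinite_eq_atTop]; exact h1.compl_mem_cofinite)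
      filter_upwards [h2] with k hk
      have h4 : t * RCLike.re ((ξ - η) (x (φ k))) + (1 - t) * RCLike.re ((ξ - η) (y (φ k))) ≤
          -c + c / 2 := by
        by_contra hlt
        push Not at hlt
        exact hk ⟨hφM k, hlt⟩
      rw [map_add, map_smul, map_smul, smul_eq_mul, smul_eq_mul, map_add, RCLike.re_ofReal_mul,
        RCLike.re_ofReal_mul]
      linarith
  · exact union_subset (Ienv_mono subset_union_left) (Ienv_mono subset_union_right)

end Pool.Agent.Results.MP_b3c6e2_an.IenvUnion
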